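import Mathlib
import Pool.Agent.Work.MP_15a5ff_al.Linear

set_option autoImplicit false

open scoped MatrixGroups

namespace Pool.Agent.Results.MP_15a5ff_al.NoUniversal

universe u

/-- There is a sequence `G n` of connected, second countable, locally compact Hausdorff groups
(metabelian, homeomorphic to `ℝ^n × ℝ^n`, abstract subgroups of `PSL(n + 2, ℝ)`) such that every
second countable locally compact Hausdorff group `S` contains an abstract copy of `G n` for only
finitely many `n`. -/
theorem result :
    ∃ (G : ℕ → Type) (_ : ∀ n, TopologicalSpace (G n)) (_ : ∀ n, Group (G n)),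
      (∀ n, IsTopologicalGroup (G n) ∧ T2Space (G n) ∧ LocallyCompactSpace (G n) ∧
        SecondCountableTopology (G n) ∧ ConnectedSpace (G n) ∧
        Nonempty (G n ≃ₜ (Fin n → ℝ) × (Fin n → ℝ)) ∧ derivedSeries (G n) 2 = ⊥ ∧
        ∃ j : G n →* PSL(n + 2, ℝ), Function.Injective j) ∧
      ∀ (S : Type u) [Group S] [TopologicalSpace S] [IsTopologicalGroup S] [T2Space S]
        [LocallyCompactSpace S] [SecondCountableTopology S],
        ∃ C : ℕ, ∀ n : ℕ, C < n → ∀ f : G n →* S, ¬ Function.Injective f := by
  refine ⟨Pool.Agent.Work.MP_15a5ff_al.AxB, inferInstance, inferInstance, fun n =>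
    ⟨inferInstance, inferInstance, inferInstance, inferInstance, inferInstance,
      ⟨Homeomorph.refl _⟩, Pool.Agent.Work.MP_15a5ff_al.derivedSeries_two n,
      _, Pool.Agent.Work.MP_15a5ff_al.toPSL_injective finSumFinEquiv⟩, fun S _ _ _ _ _ _ => ?_⟩
  obtain ⟨C, hC⟩ := Pool.Agent.Work.MP_15a5ff_al.exists_bound S
  refine ⟨C, fun n hn f hf => ?_⟩
  have := hC n f hf
  omega

end Pool.Agent.Results.MP_15a5ff_al.NoUniversal
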